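import Pool.Agent.H.MP_0447ec_lc.PT.Typed

/-!
Polynomial-time computability of basic functions on booleans, lists, options and naturals.
-/

namespace Pool.Agent.H.MP_0447ec_lc.PT

section lists

variable {α β γ δ : Type} [Enc α] [Enc β] [Enc γ] [Enc δ]

/-! ### Booleans -/

@[fun_prop]
theorem Poly.and {f g : α → Bool} (hf : Poly f) (hg : Poly g) : Poly (fun a => f a && g a) := by
  have := Poly.cond hf hg (Poly.const (α := α) false)
  refine (show (fun a => f a && g a) = fun a => bif f a then g a else false from ?_) ▸ this
  funext a; cases f a <;> rfl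

@[fun_prop]
theorem Poly.or {f g : α → Bool} (hf : Poly f) (hg : Poly g) : Poly (fun a => f a || g a) := by
  have := Poly.cond hf (Poly.const (α := α) true) hg
  refine (show (fun a => f a || g a) = fun a => bif f a then true else g a from ?_) ▸ this
  funext a; cases f a <;> rfl

@[fun_prop]
theorem Poly.not {f : α → Bool} (hf : Poly f) : Poly (fun a => !(f a)) := by
  have := Poly.cond hf (Poly.const (α := α) false) (Poly.const (α := α) true)
  refine (show (fun a => !(f a)) = fun a => bif f a then false else true from ?_) ▸ this
  funext a; cases f a <;> rfl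

@[fun_prop]
theorem Poly.xor {f g : α → Bool} (hf : Poly f) (hg : Poly g) :
    Poly (fun a => Bool.xor (f a) (g a)) := by
  have := Poly.cond hf hg.not hg
  refine (show (fun a => Bool.xor (f a) (g a)) = fun a => bif f a then !(g a) else g a
    from ?_) ▸ this
  funext a; cases f a <;> cases g a <;> rfl

@[fun_prop]
theorem Poly.beqBool {f g : α → Bool} (hf : Poly f) (hg : Poly g) :
    Poly (fun a => f a == g a) := by
  have := Poly.cond hf hg hg.not
  refine (show (fun a => f a == g a) = fun a => bif f a then g a else !(g a) from ?_) ▸ this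
  funext a; cases f a <;> cases g a <;> rfl

@[fun_prop]
theorem Poly.cond' {c : α → Bool} {f g : α → β} (hc : Poly c) (hf : Poly f) (hg : Poly g) :
    Poly (fun a => _root_.cond (c a) (f a) (g a)) := Poly.cond hc hf hg

@[fun_prop]
theorem Poly.decide_eq_true {f : α → Bool} (hf : Poly f) :
    Poly (fun a => decide (f a = true)) := by simpa using hf

@[fun_prop]
theorem Poly.ifb {c : α → Bool} {f g : α → β} (hc : Poly c) (hf : Poly f) (hg : Poly g) :
    Poly (fun a => if c a = true then f a else g a) :=
  Poly.ite (c := fun a => c a = true) (by simpa using hc) hf hg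

/-! ### Lists -/

@[fun_prop]
theorem Poly.lcons {f : α → β} {g : α → List β} (hf : Poly f) (hg : Poly g) :
    Poly (fun a => f a :: g a) := hf.consD hg fun _ => rfl

@[fun_prop]
theorem Poly.reverse {l : α → List β} (hl : Poly l) : Poly (fun a => (l a).reverse) := by
  have e : ∀ (l acc : List β), l.foldl (fun s b => b :: s) acc = l.reverse ++ acc := by
    intro l
    induction l with
    | nil => simp
    | cons x l ih => intro acc; simp [ih]
  have := Poly.foldl (f := fun p : α × List β × β => p.2.2 :: p.2.1) (l := l)
    (s0 := fun _ => []) (by fun_prop) hl (by fun_prop) hl.sz_le (by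
      intro a l₁ l₂ h
      rw [e, List.append_nil, sz_reverse, h]
      exact sz_sublist_le (List.sublist_append_left _ _))
  simpa [e] using this

theorem Poly.foldr {f : α × γ × β → γ} {l : α → List β} {s0 : α → γ} {B : α → ℕ}
    (hf : Poly f) (hl : Poly l) (hs : Poly s0) (hB : PBdd B)
    (h : ∀ a l₁ l₂, l a = l₁ ++ l₂ → sz (l₂.foldr (fun b s => f (a, s, b)) (s0 a)) ≤ B a) :
    Poly (fun a => (l a).foldr (fun b s => f (a, s, b)) (s0 a)) := by
  have := Poly.foldl hf hl.reverse hs hB (by
    intro a l₁ l₂ he
    have h2 : l a = l₂.reverse ++ l₁.reverse := by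
      rw [← List.reverse_append, ← he, List.reverse_reverse]
    have := h a _ _ h2
    rwa [List.foldr_reverse] at this)
  simpa [List.foldl_reverse] using this

@[fun_prop]
theorem Poly.map {f : α → β → γ} {l : α → List β} (hf : Poly (fun p : α × β => f p.1 p.2))
    (hl : Poly l) : Poly (fun a => (l a).map (f a)) := by
  obtain ⟨P, hP⟩ := hf.sz_le
  have e : ∀ (g : β → γ) (l : List β), l.foldr (fun b s => g b :: s) [] = l.map g := by
    intro g l
    induction l with
    | nil => simp
    | cons x l ih => simp [ih]
  have key := Poly.foldr (f := fun p : α × List γ × β => f p.1 p.2.2 :: p.2.1) (l := l)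
    (s0 := fun _ => [])
    (B := fun a => sz (l a) * (P.eval (sz a + sz (l a) + 1) + 1) + 1)
    (Poly.lcons (hf.comp (g := fun p : α × List γ × β => (p.1, p.2.2)) (by fun_prop))
      (by fun_prop)) hl (by fun_prop)
    (((hl.sz_le.mul (((PBdd.sz_self.add hl.sz_le).add (PBdd.const 1)).eval P |>.add
      (PBdd.const 1))).add (PBdd.const 1))) (by
      intro a l₁ l₂ h
      simp only
      rw [e]
      refine (sz_le_of_forall _ (P.eval (sz a + sz (l a) + 1)) ?_).trans ?_
      · intro c hc
        obtain ⟨b, hb, rfl⟩ := List.mem_map.1 hc
        refine (hP (a, b)).trans (poly_mono P ?_)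
        have : sz b < sz (l a) := sz_mem_lt (by rw [h]; simp [hb])
        rw [sz_pair]; omega
      · rw [List.length_map]
        have h1 : l₂.length ≤ sz (l a) := by
          have := length_lt_sz (l a)
          rw [h] at this ⊢
          simp at this
          omega
        have := Nat.mul_le_mul_right (P.eval (sz a + sz (l a) + 1) + 1) h1
        omega)
  simpa [e] using key

@[fun_prop]
theorem Poly.filter {f : α → β → Bool} {l : α → List β}
    (hf : Poly (fun p : α × β => f p.1 p.2)) (hl : Poly l) :
    Poly (fun a => (l a).filter (f a)) := by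
  have e : ∀ (g : β → Bool) (l : List β),
      l.foldr (fun b s => bif g b then b :: s else s) [] = l.filter g := by
    intro g l
    induction l with
    | nil => simp
    | cons x l ih => cases h : g x <;> simp [h, ih]
  have key := Poly.foldr (f := fun p : α × List β × β => bif f p.1 p.2.2 then p.2.2 :: p.2.1
      else p.2.1) (l := l)
    (s0 := fun _ => []) (B := fun a => sz (l a))
    (Poly.cond (hf.comp (g := fun p : α × List β × β => (p.1, p.2.2)) (by fun_prop))
      (by fun_prop) (by fun_prop)) hl (by fun_prop) hl.sz_le (by
      intro a l₁ l₂ h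
      simp only
      rw [e, h]
      exact sz_sublist_le (List.filter_sublist.trans (List.sublist_append_right _ _)))
  simpa [e] using key

@[fun_prop]
theorem Poly.append {f g : α → List β} (hf : Poly f) (hg : Poly g) :
    Poly (fun a => f a ++ g a) := by
  have e : ∀ (l m : List β), l.foldr (fun b s => b :: s) m = l ++ m := by
    intro l m
    induction l with
    | nil => simp
    | cons x l ih => simp [ih]
  have key := Poly.foldr (f := fun p : α × List β × β => p.2.2 :: p.2.1) (l := f)
    (s0 := g) (B := fun a => sz (f a) + sz (g a)) (by fun_prop) hf hg (hf.sz_le.add hg.sz_le) (by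
      intro a l₁ l₂ h
      simp only
      rw [e, h]
      have h1 := sz_append l₂ (g a)
      have h2 := sz_append l₁ l₂
      have := sz_pos l₁
      omega)
  simpa [e] using key

@[fun_prop]
theorem Poly.flatten {f : α → List (List β)} (hf : Poly f) :
    Poly (fun a => (f a).flatten) := by
  have e : ∀ (l : List (List β)), l.foldr (fun b s => b ++ s) [] = l.flatten := by
    intro l
    induction l with
    | nil => simp
    | cons x l ih => simp [ih]
  have e2 : ∀ (l : List (List β)), sz l.flatten ≤ sz l := by
    intro l
    induction l with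
    | nil => simp
    | cons x l ih =>
      have := sz_append x l.flatten
      simp only [List.flatten_cons, sz_lcons]
      omega
  have key := Poly.foldr (f := fun p : α × List β × List β => p.2.2 ++ p.2.1) (l := f)
    (s0 := fun _ => []) (B := fun a => sz (f a)) (by fun_prop) hf (by fun_prop) hf.sz_le (by
      intro a l₁ l₂ h
      simp only
      rw [e, h]
      exact (e2 _).trans (sz_sublist_le (List.sublist_append_right _ _)))
  simpa [e] using key

@[fun_prop]
theorem Poly.flatMap {f : α → β → List γ} {l : α → List β}
    (hf : Poly (fun p : α × β => f p.1 p.2)) (hl : Poly l) :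
    Poly (fun a => (l a).flatMap (f a)) := by
  have : Poly (fun a => ((l a).map (f a)).flatten) := by fun_prop
  simpa [List.flatMap_def] using this

theorem enc_units (n : ℕ) : enc (List.replicate n ()) = enc n := by
  induction n with
  | zero => rfl
  | succ n ih => rw [List.replicate_succ, enc_lcons, ih]; rfl

theorem enc_units' (l : List Unit) : enc l = enc l.length := by
  induction l with
  | nil => rfl
  | cons a l ih => rw [enc_lcons, ih]; rfl

@[fun_prop]
theorem Poly.units {n : α → ℕ} (hn : Poly n) : Poly (fun a => List.replicate (n a) ()) :=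
  hn.congr_enc fun _ => enc_units _

@[fun_prop]
theorem Poly.length {l : α → List β} (hl : Poly l) : Poly (fun a => (l a).length) := by
  have h1 : Poly (fun a => (l a).map (fun _ => ())) := by fun_prop
  exact h1.congr_enc fun a => by rw [enc_units']; simp

@[fun_prop]
theorem Poly.any {f : α → β → Bool} {l : α → List β}
    (hf : Poly (fun p : α × β => f p.1 p.2)) (hl : Poly l) :
    Poly (fun a => (l a).any (f a)) := by
  have e : ∀ (g : β → Bool) (l : List β),
      l.foldr (fun b s => g b || s) false = l.any g := by
    intro g l
    induction l with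
    | nil => simp
    | cons x l ih => simp [ih]
  have key := Poly.foldr (f := fun p : α × Bool × β => f p.1 p.2.2 || p.2.1) (l := l)
    (s0 := fun _ => false) (B := fun a => 3)
    (Poly.or (hf.comp (g := fun p : α × Bool × β => (p.1, p.2.2)) (by fun_prop))
      (by fun_prop)) hl (by fun_prop) (PBdd.const 3) (fun _ _ _ _ => sz_bool_le _)
  simpa [e] using key

@[fun_prop]
theorem Poly.all {f : α → β → Bool} {l : α → List β}
    (hf : Poly (fun p : α × β => f p.1 p.2)) (hl : Poly l) :
    Poly (fun a => (l a).all (f a)) := by
  have : Poly (fun a => !((l a).any (fun b => !(f a b)))) := by fun_prop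
  simpa [List.all_eq_not_any_not] using this

@[fun_prop]
theorem Poly.tail {l : α → List β} (hl : Poly l) : Poly (fun a => (l a).tail) := by
  have := Poly.lcase (f := fun _ => ([] : List β)) (g := fun _ _ xs => xs) hl (by fun_prop)
    (by fun_prop)
  refine (show (fun a => (l a).tail) = _ from ?_) ▸ this
  funext a; cases l a <;> rfl

@[fun_prop]
theorem Poly.headD {l : α → List β} {d : α → β} (hl : Poly l) (hd : Poly d) :
    Poly (fun a => (l a).headD (d a)) := by
  have := Poly.lcase (f := d) (g := fun _ x _ => x) hl hd (by fun_prop)
  refine (show (fun a => (l a).headD (d a)) = _ from ?_) ▸ this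
  funext a; cases l a <;> rfl

@[fun_prop]
theorem Poly.isEmpty {l : α → List β} (hl : Poly l) : Poly (fun a => (l a).isEmpty) := by
  have := Poly.lcase (f := fun _ => true) (g := fun _ _ _ => false) hl (by fun_prop)
    (by fun_prop)
  refine (show (fun a => (l a).isEmpty) = _ from ?_) ▸ this
  funext a; cases l a <;> rfl

/-! ### Options -/

@[fun_prop]
theorem Poly.some {f : α → β} (hf : Poly f) : Poly (fun a => Option.some (f a)) :=
  (Poly.const ()).consD hf fun _ => rfl

@[fun_prop]
theorem Poly.head? {l : α → List β} (hl : Poly l) : Poly (fun a => (l a).head?) := by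
  have := Poly.lcase (f := fun _ => (none : Option β)) (g := fun _ x _ => Option.some x) hl
    (by fun_prop) (by fun_prop)
  refine (show (fun a => (l a).head?) = _ from ?_) ▸ this
  funext a; cases l a <;> rfl

@[fun_prop]
theorem Poly.ogetD {o : α → Option β} {d : α → β} (ho : Poly o) (hd : Poly d) :
    Poly (fun a => (o a).getD (d a)) := by
  have := Poly.ocase (f := d) (g := fun _ x => x) ho hd (by fun_prop)
  refine (show (fun a => (o a).getD (d a)) = _ from ?_) ▸ this
  funext a; cases o a <;> rfl

@[fun_prop]
theorem Poly.isSome {o : α → Option β} (ho : Poly o) : Poly (fun a => (o a).isSome) := by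
  have := Poly.ocase (f := fun _ => false) (g := fun _ _ => true) ho (by fun_prop) (by fun_prop)
  refine (show (fun a => (o a).isSome) = _ from ?_) ▸ this
  funext a; cases o a <;> rfl

@[fun_prop]
theorem Poly.omap {f : α → β → γ} {o : α → Option β} (hf : Poly (fun p : α × β => f p.1 p.2))
    (ho : Poly o) : Poly (fun a => (o a).map (f a)) := by
  have := Poly.ocase (f := fun _ => (none : Option γ)) (g := fun a x => Option.some (f a x)) ho
    (by fun_prop) (by fun_prop)
  refine (show (fun a => (o a).map (f a)) = _ from ?_) ▸ this
  funext a; cases o a <;> rfl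

@[fun_prop]
theorem Poly.obind {f : α → β → Option γ} {o : α → Option β}
    (hf : Poly (fun p : α × β => f p.1 p.2)) (ho : Poly o) :
    Poly (fun a => (o a).bind (f a)) := by
  have := Poly.ocase (f := fun _ => (none : Option γ)) (g := fun a x => f a x) ho
    (by fun_prop) (by fun_prop)
  refine (show (fun a => (o a).bind (f a)) = _ from ?_) ▸ this
  funext a; cases o a <;> rfl

/-! ### Naturals (unary) -/

@[fun_prop]
theorem Poly.succ {f : α → ℕ} (hf : Poly f) : Poly (fun a => f a + 1) :=
  (Poly.const ()).consD hf fun _ => rfl

@[fun_prop]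
theorem Poly.pred {f : α → ℕ} (hf : Poly f) : Poly (fun a => f a - 1) := by
  have := Poly.ncase (f := fun _ => 0) (g := fun _ n => n) hf (by fun_prop) (by fun_prop)
  refine (show (fun a => f a - 1) = _ from ?_) ▸ this
  funext a; cases f a <;> rfl

@[fun_prop]
theorem Poly.add {f g : α → ℕ} (hf : Poly f) (hg : Poly g) : Poly (fun a => f a + g a) := by
  have : Poly (fun a => (List.replicate (f a) () ++ List.replicate (g a) ()).length) := by
    fun_prop
  simpa using this

@[fun_prop]
theorem Poly.mul {f g : α → ℕ} (hf : Poly f) (hg : Poly g) : Poly (fun a => f a * g a) := by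
  have : Poly (fun a => ((List.replicate (f a) ()).flatMap
    (fun _ => List.replicate (g a) ())).length) := by
    fun_prop
  simpa using this

theorem Poly.iterate {f : α → β → β} {s : α → β} {n : α → ℕ} {B : α → ℕ}
    (hf : Poly (fun p : α × β => f p.1 p.2)) (hs : Poly s) (hn : Poly n) (hB : PBdd B)
    (h : ∀ a k, k ≤ n a → sz ((f a)^[k] (s a)) ≤ B a) :
    Poly (fun a => (f a)^[n a] (s a)) := by
  have e : ∀ (g : β → β) (l : List Unit) (s : β), l.foldl (fun s _ => g s) s = g^[l.length] s := by
    intro g l
    induction l with
    | nil => simp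
    | cons x l ih => intro s; simp [ih]
  have key := Poly.foldl (f := fun p : α × β × Unit => f p.1 p.2.1)
    (l := fun a => List.replicate (n a) ()) (s0 := s) (B := B)
    (hf.comp (g := fun p : α × β × Unit => (p.1, p.2.1)) (by fun_prop)) (by fun_prop) hs hB (by
      intro a l₁ l₂ h'
      simp only
      rw [e]
      apply h
      have := congrArg List.length h'
      simp at this
      omega)
  simpa [e] using key

@[fun_prop]
theorem Poly.sub {f g : α → ℕ} (hf : Poly f) (hg : Poly g) : Poly (fun a => f a - g a) := by
  have e : ∀ k n : ℕ, (fun m : ℕ => m - 1)^[k] n = n - k := by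
    intro k
    induction k with
    | zero => simp
    | succ k ih => intro n; rw [Function.iterate_succ_apply, ih]; omega
  have := Poly.iterate (f := fun (_ : α) (m : ℕ) => m - 1) (s := f) (n := g) (B := fun a => sz (f a))
    (by fun_prop) hf hg hf.sz_le (by intro a k _; rw [e]; simp)
  simpa [e] using this

@[fun_prop]
theorem Poly.isZero {f : α → ℕ} (hf : Poly f) : Poly (fun a => decide (f a = 0)) := by
  have := Poly.ncase (f := fun _ => true) (g := fun _ _ => false) hf (by fun_prop)
    (by fun_prop)
  refine (show (fun a => decide (f a = 0)) = _ from ?_) ▸ this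
  funext a; cases f a <;> rfl

@[fun_prop]
theorem Poly.natle {f g : α → ℕ} (hf : Poly f) (hg : Poly g) :
    Poly (fun a => decide (f a ≤ g a)) := by
  have : Poly (fun a => decide (f a - g a = 0)) := by fun_prop
  refine (show (fun a => decide (f a ≤ g a)) = _ from ?_) ▸ this
  funext a; congr 1; exact propext (by omega)

@[fun_prop]
theorem Poly.natlt {f g : α → ℕ} (hf : Poly f) (hg : Poly g) :
    Poly (fun a => decide (f a < g a)) := by
  have : Poly (fun a => decide (f a + 1 ≤ g a)) := by fun_prop
  exact this

@[fun_prop]
theorem Poly.nateq {f g : α → ℕ} (hf : Poly f) (hg : Poly g) :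
    Poly (fun a => decide (f a = g a)) := by
  have : Poly (fun a => decide (f a ≤ g a) && decide (g a ≤ f a)) := by fun_prop
  refine (show (fun a => decide (f a = g a)) = _ from ?_) ▸ this
  funext a
  by_cases h : f a = g a
  · simp [h]
  · have : ¬ (f a ≤ g a ∧ g a ≤ f a) := by omega
    simp only [h, decide_false]
    by_cases h1 : f a ≤ g a <;> by_cases h2 : g a ≤ f a <;> simp_all

@[fun_prop]
theorem Poly.natbeq {f g : α → ℕ} (hf : Poly f) (hg : Poly g) :
    Poly (fun a => f a == g a) := by
  have : Poly (fun a => decide (f a = g a)) := by fun_prop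
  refine (show (fun a => f a == g a) = _ from ?_) ▸ this
  funext a
  by_cases h : f a = g a <;> simp [h]

end lists

end Pool.Agent.H.MP_0447ec_lc.PT
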