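import Pool.Agent.H.MP_0447ec_lc.PT.Lists

/-!
From `Poly` to Mathlib's `Turing.TM2ComputableInPolyTime`.
-/

namespace Pool.Agent.H.MP_0447ec_lc.PT

open Turing Computability

variable {α β : Type} [Enc α] [Enc β]

omit [Enc α] [Enc β] in
theorem tm2_of_run {ea : α → List Bool} {eb : β → List Bool} {f : α → β} (p : Prog)
    (P : Polynomial ℕ)
    (h : ∀ a, Run p (mk4 (ea a) [] [] []) (mk4 (eb (f a)) [] [] []) (P.eval (ea a).length)) :
    Nonempty (TM2ComputableInPolyTime ea eb f) := by
  have key : ∀ a, Nonempty (TM2OutputsInTime (machine p) (ea a) (some (eb (f a)))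
      ((P + 1).eval (ea a).length)) := by
    intro a
    obtain ⟨n, hn, hev⟩ := h a
    obtain ⟨h1⟩ := machine_outputs p _ _ n hev
    exact ⟨⟨h1.toEvalsTo, h1.steps_le_m.trans (by simpa using hn)⟩⟩
  refine ⟨{ tm := machine p
            inputAlphabet := Equiv.refl _
            outputAlphabet := Equiv.refl _
            time := P + 1
            outputsFun := fun a => ?_ }⟩
  have h1 := Classical.choice (key a)
  have key2 : ∀ (l1 l2 : List Bool), l1 = ea a → l2 = eb (f a) →
      TM2OutputsInTime (machine p) l1 (some l2) ((P + 1).eval (ea a).length) := by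
    rintro _ _ rfl rfl
    exact h1
  exact key2 _ _ (List.map_id _) (List.map_id _)

/-- A `Poly` function is computed in polynomial time by a `TM2` machine, inputs and outputs being
given by the pre-order serializations of their encodings. -/
theorem Poly.tm2 {f : α → β} (hf : Poly f) :
    Nonempty (TM2ComputableInPolyTime (fun a => (enc a).bits) (fun b => (enc b).bits) f) := by
  obtain ⟨p, P, h⟩ := hf
  refine tm2_of_run p P fun a => ?_
  have := h a []
  simpa [stk, D.bits_length, sz] using this

/-- A boolean `Poly` function is decided in polynomial time by a `TM2` machine. -/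
theorem Poly.tm2_bool {f : α → Bool} (hf : Poly f) :
    Nonempty (TM2ComputableInPolyTime (fun a => (enc a).bits) encodeBool f) := by
  obtain ⟨p, P, h⟩ := hf
  refine tm2_of_run (.seq p (.pop .M .skip (.push .M false) (.seq drop (.seq drop
    (.push .M true))))) (P + 30) fun a => ?_
  have h1 := h a []
  have e0 : stk [enc a] [] = mk4 ((enc a).bits) [] [] [] := by simp [stk]
  rw [e0] at h1
  cases hfa : f a with
  | false =>
    rw [hfa, enc_false] at h1
    have h2 : Run (.push .M false) (stk [] []) (mk4 [false] [] [] []) 1 := by
      have := Run.push (k := .M) (b := false) (s := stk [] [])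
      simpa [stk] using this
    have h3 := run_case_nil (pe := .skip) (pt := .seq drop (.seq drop (.push .M true))) h2
    refine Run.mono (Run.seq h1 h3) ?_
    simp [D.bits_length, sz]
  | true =>
    rw [hfa, enc_true] at h1
    have h2 : Run (.push .M true) (stk [] []) (mk4 [true] [] [] []) 1 := by
      have := Run.push (k := .M) (b := true) (s := stk [] [])
      simpa [stk] using this
    have h4 := run_drop .nil [.nil] []
    have h5 := run_drop .nil [] []
    have h3 := run_case_cons (pe := .skip) (pf := .push .M false)
      (Run.seq h4 (Run.seq h5 h2))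
    refine Run.mono (Run.seq h1 h3) ?_
    simp [D.bits_length, sz, D.size]

/-! ### Raw bit strings as inputs and outputs -/

theorem run_restoreA' (v : Stk) (hv : v = .A) (m a b c : List Bool) :
    Run (restore v) (mk4 m a b c) (mk4 (a.reverse ++ m) [] b c) (2 * a.length + 1) := by
  subst hv
  exact run_restoreA b c a m

/-- Move M to A. -/
def moveMA : Prog := .loop .M (.push .A false) (.push .A true)

theorem run_moveMA (b c : List Bool) : ∀ (m a : List Bool),
    Run moveMA (mk4 m a b c) (mk4 [] (m.reverse ++ a) b c) (2 * m.length + 1) := by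
  intro m
  induction m with
  | nil => intro a; exact Run.loop_e rfl
  | cons v m ih =>
    intro a
    have key := ih (v :: a)
    have : (v :: m).reverse ++ a = m.reverse ++ v :: a := by simp
    rw [this]
    have h2 : 1 + (2 * m.length + 1) + 1 ≤ 2 * (v :: m).length + 1 := by simp; omega
    refine Run.mono ?_ h2
    cases v
    · refine Run.loop_f (l := m) rfl (n := 1) ?_ key
      simpa using Run.push (k := .A) (b := false) (s := mk4 m a b c)
    · refine Run.loop_t (l := m) rfl (n := 1) ?_ key
      simpa using Run.push (k := .A) (b := true) (s := mk4 m a b c)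

/-- Encode the raw (reversed) content of A as a list of booleans on M. -/
def encLoop : Prog := .loop .A (.seq (.push .M false) (.push .M true))
  (.seq (.push .M false) (.seq (.push .M false) (.seq (.push .M true) (.push .M true))))

theorem run_encLoop (b c : List Bool) : ∀ (a l : List Bool),
    Run encLoop (mk4 (enc l).bits a b c) (mk4 (enc (a.reverse ++ l)).bits [] b c)
      (5 * a.length + 1) := by
  intro a
  induction a with
  | nil => intro l; exact Run.loop_e rfl
  | cons v a ih =>
    intro l
    have key := ih (v :: l)
    have : (v :: a).reverse ++ l = a.reverse ++ v :: l := by simp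
    rw [this]
    have h2 : 4 + (5 * a.length + 1) + 1 ≤ 5 * (v :: a).length + 1 := by simp; omega
    refine Run.mono ?_ h2
    cases v
    · refine Run.loop_f (l := a) rfl (n := 4) ?_ key
      rw [upd_A]
      have h1 := Run.push (k := .M) (b := false) (s := mk4 (enc l).bits a b c)
      have h2 := Run.push (k := .M) (b := true) (s := mk4 (false :: (enc l).bits) a b c)
      rw [mk4_M, upd_M] at h1 h2
      refine Run.mono (Run.seq h1 h2) (by omega)
    · refine Run.loop_t (l := a) rfl (n := 4) ?_ key
      rw [upd_A]
      have h1 := Run.push (k := .M) (b := false) (s := mk4 (enc l).bits a b c)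
      have h2 := Run.push (k := .M) (b := false) (s := mk4 (false :: (enc l).bits) a b c)
      have h3 := Run.push (k := .M) (b := true)
        (s := mk4 (false :: false :: (enc l).bits) a b c)
      have h4 := Run.push (k := .M) (b := true)
        (s := mk4 (true :: false :: false :: (enc l).bits) a b c)
      rw [mk4_M, upd_M] at h1 h2 h3 h4
      refine Run.mono (Run.seq h1 (Run.seq h2 (Run.seq h3 h4))) (by omega)

/-- Decode a list of booleans on M to (reversed) raw bits on A. -/
def decLoop : Prog := .whileT .M (.pop .M .skip (.push .A false)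
  (.seq drop (.seq drop (.push .A true))))

theorem run_drop' (y : D) (m a : List Bool) :
    Run drop (mk4 (y.bits ++ m) a [] []) (mk4 m a [] []) (6 * y.size + 3) := by
  unfold drop
  have h := run_mv false false m a [] [y]
  simpa [cpre] using h

theorem run_decLoop : ∀ (l a : List Bool),
    Run decLoop (mk4 (enc l).bits a [] []) (mk4 [] (l.reverse ++ a) [] []) (30 * l.length + 1) := by
  intro l
  induction l with
  | nil =>
    intro a
    have := Run.while_f (k := .M) (p := (.pop .M .skip (.push .A false)
      (.seq drop (.seq drop (.push .A true))))) (s := mk4 [false] a [] []) (l := []) rfl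
    unfold decLoop
    simpa [D.bits] using this
  | cons v l ih =>
    intro a
    have key := ih (v :: a)
    have : (v :: l).reverse ++ a = l.reverse ++ v :: a := by simp
    rw [this]
    have h2 : 29 + (30 * l.length + 1) + 1 ≤ 30 * (v :: l).length + 1 := by simp; omega
    refine Run.mono ?_ h2
    cases v
    · refine Run.while_t (l := false :: (enc l).bits) (by simp [D.bits]) (n := 29) ?_ key
      rw [upd_M]
      refine Run.mono (Run.pop_f (n := 1) (l := (enc l).bits) rfl ?_) (by omega)
      rw [upd_M]
      simpa using Run.push (k := .A) (b := false) (s := mk4 (enc l).bits a [] [])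
    · refine Run.while_t (l := true :: false :: false :: (enc l).bits) (by simp [D.bits])
        (n := 29) ?_ key
      rw [upd_M]
      have h3 := run_drop' .nil (false :: (enc l).bits) a
      have h4 := run_drop' .nil ((enc l).bits) a
      have h5 := Run.push (k := .A) (b := true) (s := mk4 (enc l).bits a [] [])
      rw [upd_A, mk4_A] at h5
      refine Run.mono (Run.pop_t (l := false :: false :: (enc l).bits) rfl
        (by rw [upd_M]; exact Run.seq h3 (Run.seq h4 h5))) ?_
      simp [D.size]

/-- raw bits to encoded list -/
def toEnc : Prog := .seq moveMA (.seq (.push .M false) encLoop)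

theorem run_toEnc (s : List Bool) :
    Run toEnc (mk4 s [] [] []) (stk [enc s] []) (7 * s.length + 3) := by
  have h1 := run_moveMA [] [] s []
  have h2 := Run.push (k := .M) (b := false) (s := mk4 [] (s.reverse ++ []) [] [])
  rw [mk4_M, upd_M] at h2
  have h3 := run_encLoop [] [] (s.reverse ++ []) []
  have h := Run.seq h1 (Run.seq h2 h3)
  have e : stk [enc s] [] = mk4 (enc ((s.reverse ++ []).reverse ++ [])).bits [] [] [] := by
    simp [stk]
  rw [e]
  exact Run.mono h (by simp; omega)

/-- encoded list to raw bits -/
def ofEnc : Prog := .seq decLoop (restore .A)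

theorem run_ofEnc (s : List Bool) :
    Run ofEnc (stk [enc s] []) (mk4 s [] [] []) (32 * s.length + 2) := by
  have h1 := run_decLoop s []
  have h2 := run_restoreA [] [] (s.reverse ++ []) []
  have h := Run.seq h1 h2
  have e : stk [enc s] [] = mk4 (enc s).bits [] [] [] := by
    simp [stk]
  have e2 : (s.reverse ++ []).reverse ++ [] = s := by simp
  rw [e2] at h
  rw [e]
  exact Run.mono h (by simp; omega)

theorem sz_lbool_le (s : List Bool) : sz s ≤ 4 * s.length + 1 := by
  have := sz_le_of_forall s 3 (fun b _ => sz_bool_le b)
  omega

/-- A `Poly` function on bit strings is computed in polynomial time by a `TM2` machine working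
on the bit strings themselves. -/
theorem Poly.tm2_raw {f : List Bool → List Bool} (hf : Poly f) :
    Nonempty (TM2ComputableInPolyTime (fun s : List Bool => s) (fun s : List Bool => s) f) := by
  obtain ⟨Q, hQ⟩ := hf.sz_le
  obtain ⟨p, P, h⟩ := hf
  refine tm2_of_run (.seq toEnc (.seq p ofEnc))
    (7 * Polynomial.X + 3 + P.comp (4 * Polynomial.X + 1) +
      32 * Q.comp (4 * Polynomial.X + 1) + 2) fun s => ?_
  refine Run.mono (Run.seq (run_toEnc s) (Run.seq (h s []) (run_ofEnc (f s)))) ?_
  have h1 : P.eval (sz s) ≤ P.eval (4 * s.length + 1) := poly_mono P (sz_lbool_le s)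
  have h2 : sz (f s) ≤ Q.eval (4 * s.length + 1) := (hQ s).trans (poly_mono Q (sz_lbool_le s))
  have h3 := length_lt_sz (f s)
  simp
  omega

/-- A boolean `Poly` function on bit strings is decided in polynomial time by a `TM2` machine
working on the bit strings themselves. -/
theorem Poly.tm2_raw_bool {f : List Bool → Bool} (hf : Poly f) :
    Nonempty (TM2ComputableInPolyTime (fun s : List Bool => s) encodeBool f) := by
  have hg : Poly (fun s => [f s]) := by fun_prop
  obtain ⟨Q, hQ⟩ := hg.sz_le
  obtain ⟨p, P, h⟩ := hg
  refine tm2_of_run (.seq toEnc (.seq p ofEnc))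
    (7 * Polynomial.X + 3 + P.comp (4 * Polynomial.X + 1) + 34) fun s => ?_
  refine Run.mono (Run.seq (run_toEnc s) (Run.seq (h s []) (run_ofEnc [f s]))) ?_
  have h1 : P.eval (sz s) ≤ P.eval (4 * s.length + 1) := poly_mono P (sz_lbool_le s)
  simp
  omega

end Pool.Agent.H.MP_0447ec_lc.PT
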