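import Mathlib

/-!
A small structured language of programs acting on four stacks of bits, with a cost semantics,
compiled to the stack machines `Turing.TM2` of Mathlib.
-/

namespace Pool.Agent.H.MP_0447ec_lc.PT

/-- The four stacks. -/
inductive Stk
  | M | A | B | C
  deriving DecidableEq, Fintype

/-- Structured programs over the four stacks. -/
inductive Prog : Type
  | skip : Prog
  | push (k : Stk) (b : Bool) : Prog
  | seq (p q : Prog) : Prog
  | pop (k : Stk) (pe pf pt : Prog) : Prog
  | loop (k : Stk) (pf pt : Prog) : Prog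
  | whileT (k : Stk) (p : Prog) : Prog

/-- Stores: contents of the four stacks. -/
abbrev Sto := Stk → List Bool

/-- The store with given contents. -/
def mk4 (m a b c : List Bool) : Sto
  | .M => m
  | .A => a
  | .B => b
  | .C => c

@[simp] theorem mk4_M (m a b c) : mk4 m a b c .M = m := rfl
@[simp] theorem mk4_A (m a b c) : mk4 m a b c .A = a := rfl
@[simp] theorem mk4_B (m a b c) : mk4 m a b c .B = b := rfl
@[simp] theorem mk4_C (m a b c) : mk4 m a b c .C = c := rfl

@[simp] theorem upd_M (m a b c x) : Function.update (mk4 m a b c) .M x = mk4 x a b c := by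
  funext k; cases k <;> simp [Function.update]
@[simp] theorem upd_A (m a b c x) : Function.update (mk4 m a b c) .A x = mk4 m x b c := by
  funext k; cases k <;> simp [Function.update]
@[simp] theorem upd_B (m a b c x) : Function.update (mk4 m a b c) .B x = mk4 m a x c := by
  funext k; cases k <;> simp [Function.update]
@[simp] theorem upd_C (m a b c x) : Function.update (mk4 m a b c) .C x = mk4 m a b x := by
  funext k; cases k <;> simp [Function.update]

/-- Big-step cost semantics. -/
inductive Ev : Prog → Sto → Sto → ℕ → Prop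
  | skip {s} : Ev .skip s s 1
  | push {k b s} : Ev (.push k b) s (Function.update s k (b :: s k)) 1
  | seq {p q s s' s'' n m} : Ev p s s' n → Ev q s' s'' m → Ev (.seq p q) s s'' (n + m)
  | pop_e {k pe pf pt s s' n} : s k = [] → Ev pe s s' n → Ev (.pop k pe pf pt) s s' (n + 1)
  | pop_f {k pe pf pt s s' n} {l : List Bool} : s k = false :: l →
      Ev pf (Function.update s k l) s' n → Ev (.pop k pe pf pt) s s' (n + 1)
  | pop_t {k pe pf pt s s' n} {l : List Bool} : s k = true :: l →
      Ev pt (Function.update s k l) s' n → Ev (.pop k pe pf pt) s s' (n + 1)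
  | loop_e {k pf pt s} : s k = [] → Ev (.loop k pf pt) s s 1
  | loop_f {k pf pt s s' s'' n m} {l : List Bool} : s k = false :: l →
      Ev pf (Function.update s k l) s' n → Ev (.loop k pf pt) s' s'' m →
      Ev (.loop k pf pt) s s'' (n + m + 1)
  | loop_t {k pf pt s s' s'' n m} {l : List Bool} : s k = true :: l →
      Ev pt (Function.update s k l) s' n → Ev (.loop k pf pt) s' s'' m →
      Ev (.loop k pf pt) s s'' (n + m + 1)
  | while_e {k p s} : s k = [] → Ev (.whileT k p) s s 1
  | while_f {k p s} {l : List Bool} : s k = false :: l →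
      Ev (.whileT k p) s (Function.update s k l) 1
  | while_t {k p s s' s'' n m} {l : List Bool} : s k = true :: l →
      Ev p (Function.update s k l) s' n → Ev (.whileT k p) s' s'' m →
      Ev (.whileT k p) s s'' (n + m + 1)

/-! ### Compilation to TM2 -/

/-- Labels of the compiled program. -/
def Lab : Prog → Type
  | .skip => Unit
  | .push _ _ => Unit
  | .seq p q => Lab p ⊕ Lab q
  | .pop _ p q r => Option (Lab p ⊕ (Lab q ⊕ Lab r))
  | .loop _ p q => Option (Lab p ⊕ Lab q)
  | .whileT _ p => Option (Lab p)

instance instFintypeLab : (p : Prog) → Fintype (Lab p)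
  | .skip => inferInstanceAs (Fintype Unit)
  | .push _ _ => inferInstanceAs (Fintype Unit)
  | .seq p q =>
    letI := instFintypeLab p; letI := instFintypeLab q
    inferInstanceAs (Fintype (Lab p ⊕ Lab q))
  | .pop _ p q r =>
    letI := instFintypeLab p; letI := instFintypeLab q; letI := instFintypeLab r
    inferInstanceAs (Fintype (Option (Lab p ⊕ (Lab q ⊕ Lab r))))
  | .loop _ p q =>
    letI := instFintypeLab p; letI := instFintypeLab q
    inferInstanceAs (Fintype (Option (Lab p ⊕ Lab q)))
  | .whileT _ p =>
    letI := instFintypeLab p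
    inferInstanceAs (Fintype (Option (Lab p)))

/-- Entry label. -/
def start : (p : Prog) → Lab p
  | .skip => ()
  | .push _ _ => ()
  | .seq p _ => Sum.inl (start p)
  | .pop _ _ _ _ => (none : Option _)
  | .loop _ _ _ => (none : Option _)
  | .whileT _ _ => (none : Option _)

/-- The alphabets of all four stacks. -/
abbrev Gam : Stk → Type := fun _ => Bool

/-- The code at each label. -/
def comp {L : Type} : (p : Prog) → (Lab p → L) → L → Lab p → Turing.TM2.Stmt Gam L (Option Bool)
  | .skip, _, nx, _ => .goto fun _ => nx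
  | .push k b, _, nx, _ => .push k (fun _ => b) (.goto fun _ => nx)
  | .seq p q, e, nx, .inl a => comp p (fun x => e (.inl x)) (e (.inr (start q))) a
  | .seq _ q, e, nx, .inr a => comp q (fun x => e (.inr x)) nx a
  | .pop k p q r, e, _, none => .pop k (fun _ x => x) (.goto fun v => match v with
      | none => e (some (.inl (start p)))
      | some false => e (some (.inr (.inl (start q))))
      | some true => e (some (.inr (.inr (start r)))))
  | .pop _ p _ _, e, nx, some (.inl a) => comp p (fun x => e (some (.inl x))) nx a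
  | .pop _ _ q _, e, nx, some (.inr (.inl a)) => comp q (fun x => e (some (.inr (.inl x)))) nx a
  | .pop _ _ _ r, e, nx, some (.inr (.inr a)) => comp r (fun x => e (some (.inr (.inr x)))) nx a
  | .loop k p q, e, nx, none => .pop k (fun _ x => x) (.goto fun v => match v with
      | none => nx
      | some false => e (some (.inl (start p)))
      | some true => e (some (.inr (start q))))
  | .loop _ p _, e, _, some (.inl a) => comp p (fun x => e (some (.inl x))) (e none) a
  | .loop _ _ q, e, _, some (.inr a) => comp q (fun x => e (some (.inr x))) (e none) a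
  | .whileT k p, e, nx, none => .pop k (fun _ x => x) (.goto fun v => match v with
      | some true => e (some (start p))
      | _ => nx)
  | .whileT _ p, e, _, some a => comp p (fun x => e (some x)) (e none) a

/-- `n` steps of the machine lead from `c` to `c'`. -/
def StepsTo {L : Type} (M : L → Turing.TM2.Stmt Gam L (Option Bool))
    (c c' : Turing.TM2.Cfg Gam L (Option Bool)) (n : ℕ) : Prop :=
  (flip bind (Turing.TM2.step M))^[n] (some c) = some c'

theorem StepsTo.trans {L : Type} {M : L → Turing.TM2.Stmt Gam L (Option Bool)}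
    {c c' c'' : Turing.TM2.Cfg Gam L (Option Bool)} {n m : ℕ}
    (h : StepsTo M c c' n) (h' : StepsTo M c' c'' m) : StepsTo M c c'' (n + m) := by
  unfold StepsTo at *
  rw [Nat.add_comm, Function.iterate_add_apply, h, h']

theorem StepsTo.one {L : Type} {M : L → Turing.TM2.Stmt Gam L (Option Bool)}
    {c c' : Turing.TM2.Cfg Gam L (Option Bool)} (h : Turing.TM2.step M c = some c') :
    StepsTo M c c' 1 := by
  unfold StepsTo
  simpa [flip] using h

theorem ev_steps {L : Type} (M : L → Turing.TM2.Stmt Gam L (Option Bool)) {p : Prog} {s s' : Sto}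
    {n : ℕ} (h : Ev p s s' n) : ∀ (e : Lab p → L) (nx : L) (_ : ∀ a, M (e a) = comp p e nx a)
      (v : Option Bool), ∃ v', StepsTo M ⟨some (e (start p)), v, s⟩ ⟨some nx, v', s'⟩ n := by
  induction h with
  | skip =>
    intro e nx hM v
    exact ⟨v, StepsTo.one (by simp [Turing.TM2.step, hM, comp, Turing.TM2.stepAux])⟩
  | push =>
    intro e nx hM v
    exact ⟨v, StepsTo.one (by simp [Turing.TM2.step, hM, comp, Turing.TM2.stepAux])⟩
  | @seq p q s s' s'' n m _ _ ihp ihq =>
    intro e nx hM v
    obtain ⟨v', h1⟩ := ihp (fun x => e (.inl x)) (e (.inr (start q)))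
      (fun a => by rw [hM]; rfl) v
    obtain ⟨v'', h2⟩ := ihq (fun x => e (.inr x)) nx (fun a => by rw [hM]; rfl) v'
    exact ⟨v'', h1.trans h2⟩
  | @pop_e k pe pf pt s s' n hs _ ih =>
    intro e nx hM v
    obtain ⟨v', h1⟩ := ih (fun x => e (some (.inl x))) nx (fun a => by rw [hM]; rfl) none
    refine ⟨v', ?_⟩
    rw [Nat.add_comm]
    refine StepsTo.trans (StepsTo.one ?_) h1
    have : Function.update s k [] = s := by rw [← hs]; exact Function.update_eq_self k s
    simp [Turing.TM2.step, hM, comp, start, Turing.TM2.stepAux, hs, this]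
  | @pop_f k pe pf pt s s' n l hs _ ih =>
    intro e nx hM v
    obtain ⟨v', h1⟩ := ih (fun x => e (some (.inr (.inl x)))) nx (fun a => by rw [hM]; rfl)
      (some false)
    refine ⟨v', ?_⟩
    rw [Nat.add_comm]
    refine StepsTo.trans (StepsTo.one ?_) h1
    simp [Turing.TM2.step, hM, comp, start, Turing.TM2.stepAux, hs]
  | @pop_t k pe pf pt s s' n l hs _ ih =>
    intro e nx hM v
    obtain ⟨v', h1⟩ := ih (fun x => e (some (.inr (.inr x)))) nx (fun a => by rw [hM]; rfl)
      (some true)
    refine ⟨v', ?_⟩
    rw [Nat.add_comm]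
    refine StepsTo.trans (StepsTo.one ?_) h1
    simp [Turing.TM2.step, hM, comp, start, Turing.TM2.stepAux, hs]
  | @loop_e k pf pt s hs =>
    intro e nx hM v
    refine ⟨none, StepsTo.one ?_⟩
    have : Function.update s k [] = s := by rw [← hs]; exact Function.update_eq_self k s
    simp [Turing.TM2.step, hM, comp, start, Turing.TM2.stepAux, hs, this]
  | @loop_f k pf pt s s' s'' n m l hs _ _ ih1 ih2 =>
    intro e nx hM v
    obtain ⟨v', h1⟩ := ih1 (fun x => e (some (.inl x))) (e none) (fun a => by rw [hM]; rfl)
      (some false)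
    obtain ⟨v'', h2⟩ := ih2 e nx hM v'
    refine ⟨v'', ?_⟩
    rw [Nat.add_comm (n + m) 1]
    refine StepsTo.trans (StepsTo.one ?_) (h1.trans h2)
    simp [Turing.TM2.step, hM, comp, start, Turing.TM2.stepAux, hs]
  | @loop_t k pf pt s s' s'' n m l hs _ _ ih1 ih2 =>
    intro e nx hM v
    obtain ⟨v', h1⟩ := ih1 (fun x => e (some (.inr x))) (e none) (fun a => by rw [hM]; rfl)
      (some true)
    obtain ⟨v'', h2⟩ := ih2 e nx hM v'
    refine ⟨v'', ?_⟩
    rw [Nat.add_comm (n + m) 1]
    refine StepsTo.trans (StepsTo.one ?_) (h1.trans h2)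
    simp [Turing.TM2.step, hM, comp, start, Turing.TM2.stepAux, hs]
  | @while_e k p s hs =>
    intro e nx hM v
    refine ⟨none, StepsTo.one ?_⟩
    have : Function.update s k [] = s := by rw [← hs]; exact Function.update_eq_self k s
    simp [Turing.TM2.step, hM, comp, start, Turing.TM2.stepAux, hs, this]
  | @while_f k p s l hs =>
    intro e nx hM v
    refine ⟨some false, StepsTo.one ?_⟩
    simp [Turing.TM2.step, hM, comp, start, Turing.TM2.stepAux, hs]
  | @while_t k p s s' s'' n m l hs _ _ ih1 ih2 =>
    intro e nx hM v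
    obtain ⟨v', h1⟩ := ih1 (fun x => e (some x)) (e none) (fun a => by rw [hM]; rfl)
      (some true)
    obtain ⟨v'', h2⟩ := ih2 e nx hM v'
    refine ⟨v'', ?_⟩
    rw [Nat.add_comm (n + m) 1]
    refine StepsTo.trans (StepsTo.one ?_) (h1.trans h2)
    simp [Turing.TM2.step, hM, comp, start, Turing.TM2.stepAux, hs]

/-- The machine of a program: run it, clear the register, halt. -/
def machine (p : Prog) : Turing.FinTM2 where
  K := Stk
  k₀ := .M
  k₁ := .M
  Γ := Gam
  Λ := Option (Lab p)
  main := some (start p)
  σ := Option Bool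
  initialState := none
  Γk₀Fin := inferInstanceAs (Fintype Bool)
  m := fun l => match l with
    | some a => comp p some none a
    | none => .load (fun _ => none) .halt

theorem machine_outputs (p : Prog) (x y : List Bool) (n : ℕ)
    (h : Ev p (mk4 x [] [] []) (mk4 y [] [] []) n) :
    Nonempty (Turing.TM2OutputsInTime (machine p) x (some y) (n + 1)) := by
  obtain ⟨v', h1⟩ := ev_steps (machine p).m h some none (fun a => rfl) none
  have h2 := h1.trans (c'' := (⟨none, none, mk4 y [] [] []⟩ : Turing.TM2.Cfg Gam _ (Option Bool)))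
    (StepsTo.one (by simp [Turing.TM2.step, machine, Turing.TM2.stepAux]))
  have hi : Turing.initList (machine p) x =
      (⟨some (some (start p)), none, mk4 x [] [] []⟩ : Turing.TM2.Cfg Gam _ (Option Bool)) := by
    unfold Turing.initList
    congr 1
    funext k; cases k <;> rfl
  have ho : Turing.haltList (machine p) y =
      (⟨none, none, mk4 y [] [] []⟩ : Turing.TM2.Cfg Gam _ (Option Bool)) := by
    unfold Turing.haltList
    congr 1
    funext k; cases k <;> rfl
  refine ⟨⟨⟨n + 1, ?_⟩, le_rfl⟩⟩
  rw [hi]
  simp only [Option.map_some, ho]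
  exact h2

end Pool.Agent.H.MP_0447ec_lc.PT
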