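import Pool.Agent.H.MP_0447ec_lc.PT.Data

/-!
Encodings of types as trees and the class `Poly` of polynomial-time computable functions.
-/

namespace Pool.Agent.H.MP_0447ec_lc.PT

/-- An injective encoding of a type by trees. -/
class Enc (α : Type) where
  /-- the encoding -/
  enc : α → D
  inj : Function.Injective enc

export Enc (enc)

/-- size of the encoding -/
def sz {α : Type} [Enc α] (a : α) : ℕ := (enc a).size

theorem sz_pos {α : Type} [Enc α] (a : α) : 1 ≤ sz a := D.size_pos _

instance : Enc D := ⟨id, fun _ _ h => h⟩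

instance : Enc Unit := ⟨fun _ => .nil, fun _ _ _ => rfl⟩

/-- encoding of booleans -/
def encBool : Bool → D
  | false => .nil
  | true => .cons .nil .nil

instance : Enc Bool := ⟨encBool, by intro a b; cases a <;> cases b <;> simp [encBool]⟩

@[simp] theorem enc_false : enc false = D.nil := rfl
@[simp] theorem enc_true : enc true = D.cons .nil .nil := rfl

/-- unary encoding of naturals -/
def encNat : ℕ → D
  | 0 => .nil
  | n + 1 => .cons .nil (encNat n)

instance : Enc ℕ := ⟨encNat, by
  intro a
  induction a with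
  | zero => intro b; cases b <;> simp [encNat]
  | succ a ih =>
    intro b
    cases b with
    | zero => simp [encNat]
    | succ b => intro h; simp only [encNat, D.cons.injEq, true_and] at h; rw [ih h]⟩

@[simp] theorem enc_zero : enc (0 : ℕ) = D.nil := rfl
@[simp] theorem enc_succ (n : ℕ) : enc (n + 1) = D.cons .nil (enc n) := rfl

/-- encoding of lists -/
def encList {α : Type} [Enc α] : List α → D
  | [] => .nil
  | a :: l => .cons (enc a) (encList l)

instance {α : Type} [Enc α] : Enc (List α) := ⟨encList, by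
  intro a
  induction a with
  | nil => intro b; cases b <;> simp [encList]
  | cons x a ih =>
    intro b
    cases b with
    | nil => simp [encList]
    | cons y b =>
      intro h
      simp only [encList, D.cons.injEq] at h
      rw [ih h.2, Enc.inj h.1]⟩

@[simp] theorem enc_lnil {α : Type} [Enc α] : enc ([] : List α) = D.nil := rfl
@[simp] theorem enc_lcons {α : Type} [Enc α] (a : α) (l : List α) :
    enc (a :: l) = D.cons (enc a) (enc l) := rfl

instance {α β : Type} [Enc α] [Enc β] : Enc (α × β) := ⟨fun p => .cons (enc p.1) (enc p.2), by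
  rintro ⟨a, b⟩ ⟨c, d⟩ h
  simp only [D.cons.injEq] at h
  rw [Enc.inj h.1, Enc.inj h.2]⟩

@[simp] theorem enc_pair {α β : Type} [Enc α] [Enc β] (a : α) (b : β) :
    enc (a, b) = D.cons (enc a) (enc b) := rfl

theorem enc_prod {α β : Type} [Enc α] [Enc β] (p : α × β) :
    enc p = D.cons (enc p.1) (enc p.2) := rfl

/-- encoding of options -/
def encOption {α : Type} [Enc α] : Option α → D
  | none => .nil
  | some a => .cons .nil (enc a)

instance {α : Type} [Enc α] : Enc (Option α) := ⟨encOption, by
  intro a b h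
  cases a <;> cases b <;> simp only [encOption, D.cons.injEq, true_and, reduceCtorEq] at h
  · rfl
  · rw [Enc.inj h]⟩

@[simp] theorem enc_none {α : Type} [Enc α] : enc (none : Option α) = D.nil := rfl
@[simp] theorem enc_some {α : Type} [Enc α] (a : α) : enc (some a) = D.cons .nil (enc a) := rfl

/-! ### sizes -/

@[simp] theorem sz_false : sz false = 1 := rfl
@[simp] theorem sz_true : sz true = 3 := rfl
theorem sz_bool_le (b : Bool) : sz b ≤ 3 := by cases b <;> simp
@[simp] theorem sz_nat (n : ℕ) : sz n = 2 * n + 1 := by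
  induction n with
  | zero => rfl
  | succ n ih =>
    have : sz (n + 1) = 1 + sz n + 1 := rfl
    rw [this, ih]; ring
@[simp] theorem sz_pair {α β : Type} [Enc α] [Enc β] (a : α) (b : β) :
    sz (a, b) = sz a + sz b + 1 := rfl
theorem sz_prod {α β : Type} [Enc α] [Enc β] (p : α × β) :
    sz p = sz p.1 + sz p.2 + 1 := rfl
@[simp] theorem sz_lnil {α : Type} [Enc α] : sz ([] : List α) = 1 := rfl
@[simp] theorem sz_lcons {α : Type} [Enc α] (a : α) (l : List α) :
    sz (a :: l) = sz a + sz l + 1 := rfl
@[simp] theorem sz_none {α : Type} [Enc α] : sz (none : Option α) = 1 := rfl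
@[simp] theorem sz_some {α : Type} [Enc α] (a : α) : sz (some a) = sz a + 2 := by
  have : sz (some a) = 1 + sz a + 1 := rfl
  omega

theorem sz_append {α : Type} [Enc α] (l₁ l₂ : List α) :
    sz (l₁ ++ l₂) + 1 = sz l₁ + sz l₂ := by
  induction l₁ with
  | nil => simp only [List.nil_append, sz_lnil]; omega
  | cons a l ih => simp only [List.cons_append, sz_lcons]; omega

theorem sz_list {α : Type} [Enc α] (l : List α) :
    sz l = (l.map sz).sum + l.length + 1 := by
  induction l with
  | nil => rfl
  | cons a l ih => simp [ih]; omega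

theorem sz_mem_lt {α : Type} [Enc α] {l : List α} {a : α} (h : a ∈ l) : sz a < sz l := by
  induction l with
  | nil => simp at h
  | cons b l ih =>
    rcases List.mem_cons.1 h with rfl | h
    · simp only [sz_lcons]; omega
    · have := ih h; simp only [sz_lcons]; omega

theorem length_lt_sz {α : Type} [Enc α] (l : List α) : l.length < sz l := by
  rw [sz_list]; omega

theorem sz_sublist_le {α : Type} [Enc α] {l₁ l₂ : List α} (h : l₁.Sublist l₂) :
    sz l₁ ≤ sz l₂ := by
  induction h with
  | slnil => exact le_rfl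
  | cons a _ ih => simp; omega
  | cons_cons a _ ih => simp; omega

theorem sz_le_of_forall {α : Type} [Enc α] (l : List α) (K : ℕ) (h : ∀ a ∈ l, sz a ≤ K) :
    sz l ≤ l.length * (K + 1) + 1 := by
  induction l with
  | nil => simp
  | cons a l ih =>
    have h1 := h a (by simp)
    have h2 := ih (fun b hb => h b (by simp [hb]))
    simp [Nat.add_mul]; omega

theorem sz_reverse {α : Type} [Enc α] (l : List α) : sz l.reverse = sz l := by
  rw [sz_list, sz_list]; simp [List.sum_reverse, List.map_reverse]

/-! ### The class -/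

/-- `f` is computable in polynomial time. -/
@[fun_prop]
def Poly {α β : Type} [Enc α] [Enc β] (f : α → β) : Prop :=
  ∃ (p : Prog) (P : Polynomial ℕ), ∀ (a : α) (m : List Bool),
    Run p (stk [enc a] m) (stk [enc (f a)] m) (P.eval (sz a))

/-- polynomially bounded numerical functions -/
def PBdd {α : Type} [Enc α] (g : α → ℕ) : Prop := ∃ P : Polynomial ℕ, ∀ a, g a ≤ P.eval (sz a)

section basic

variable {α β γ δ : Type} [Enc α] [Enc β] [Enc γ] [Enc δ]

theorem PBdd.mono {g h : α → ℕ} (hg : PBdd g) (hh : ∀ a, h a ≤ g a) : PBdd h := by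
  obtain ⟨P, hP⟩ := hg
  exact ⟨P, fun a => (hh a).trans (hP a)⟩

theorem PBdd.const (n : ℕ) : PBdd (fun _ : α => n) := ⟨Polynomial.C n, fun a => by simp⟩

theorem PBdd.sz_self : PBdd (fun a : α => sz a) := ⟨Polynomial.X, fun a => by simp⟩

theorem PBdd.add {g h : α → ℕ} (hg : PBdd g) (hh : PBdd h) : PBdd (fun a => g a + h a) := by
  obtain ⟨P, hP⟩ := hg
  obtain ⟨Q, hQ⟩ := hh
  exact ⟨P + Q, fun a => by simpa using add_le_add (hP a) (hQ a)⟩

theorem PBdd.mul {g h : α → ℕ} (hg : PBdd g) (hh : PBdd h) : PBdd (fun a => g a * h a) := by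
  obtain ⟨P, hP⟩ := hg
  obtain ⟨Q, hQ⟩ := hh
  exact ⟨P * Q, fun a => by simpa using Nat.mul_le_mul (hP a) (hQ a)⟩

theorem PBdd.pow {g : α → ℕ} (hg : PBdd g) (k : ℕ) : PBdd (fun a => g a ^ k) := by
  induction k with
  | zero => simpa using PBdd.const 1
  | succ k ih => simpa [pow_succ] using ih.mul hg

theorem PBdd.eval {g : α → ℕ} (hg : PBdd g) (P : Polynomial ℕ) :
    PBdd (fun a => P.eval (g a)) := by
  obtain ⟨Q, hQ⟩ := hg
  exact ⟨P.comp Q, fun a => by simpa using poly_mono P (hQ a)⟩

theorem Poly.sz_le {f : α → β} (h : Poly f) : PBdd (fun a => sz (f a)) := by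
  obtain ⟨p, P, h⟩ := h
  refine ⟨Polynomial.X + P, fun x => ?_⟩
  obtain ⟨n, hn, h⟩ := h x []
  have := h.tot_le
  simp [tot, stk, D.bits_length] at this
  simp [sz] at *
  omega

theorem PBdd.comp {g : β → ℕ} (hg : PBdd g) {f : α → β} (hf : Poly f) :
    PBdd (fun a => g (f a)) := by
  obtain ⟨P, hP⟩ := hg
  exact (hf.sz_le.eval P).mono fun a => hP (f a)

@[fun_prop]
theorem Poly.id : Poly (fun x : α => x) := ⟨.skip, 1, fun x m => by simpa using Run.skip⟩

@[fun_prop]
theorem Poly.comp {f : β → γ} {g : α → β} (hf : Poly f) (hg : Poly g) :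
    Poly (fun x => f (g x)) := by
  obtain ⟨Q, hQ⟩ := hg.sz_le
  obtain ⟨p, P, hp⟩ := hf
  obtain ⟨q, R, hq⟩ := hg
  refine ⟨.seq q p, R + P.comp Q, fun x m => ?_⟩
  refine Run.mono (Run.seq (hq x m) (hp (g x) m)) ?_
  simp only [Polynomial.eval_add, Polynomial.eval_comp]
  exact Nat.add_le_add_left (poly_mono P (hQ x)) _

/-- generic combination: cons of two results -/
theorem Poly.consD {f : α → β} {g : α → γ} {h : α → δ} (hf : Poly f) (hg : Poly g)
    (hh : ∀ a, enc (h a) = .cons (enc (f a)) (enc (g a))) : Poly h := by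
  obtain ⟨Q, hQ⟩ := hg.sz_le
  obtain ⟨p, P, hp⟩ := hf
  obtain ⟨q, R, hq⟩ := hg
  refine ⟨.seq (pick 0) (.seq q (.seq (roll 1) (.seq p (.push .M true)))),
    P + R + 20 * Q + 60 * Polynomial.X + 40, fun x m => ?_⟩
  have h1 := run_pick [] (enc x) [] m
  have h2 := run_lift (hq x) [enc x] m
  have h3 := run_roll [enc (g x)] (enc x) [] m
  have h4 := run_lift (hp x) [enc (g x)] m
  have h5 := run_cons (enc (f x)) (enc (g x)) [] m
  rw [hh x]
  refine Run.mono (Run.seq h1 (Run.seq h2 (Run.seq h3 (Run.seq h4 h5)))) ?_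
  have := hQ x
  simp [sz] at *
  omega

@[fun_prop]
theorem Poly.pair {f : α → β} {g : α → γ} (hf : Poly f) (hg : Poly g) :
    Poly (fun x => (f x, g x)) := hf.consD hg fun _ => rfl

theorem Poly.nilD (b : β) (hb : enc b = .nil) : Poly (fun _ : α => b) := by
  refine ⟨.seq drop (.push .M false), 6 * Polynomial.X + 4, fun x m => ?_⟩
  rw [hb]
  refine Run.mono (Run.seq (run_drop (enc x) [] m) (run_nil [] m)) ?_
  simp [sz]

theorem Poly.constD (d : D) : Poly (fun _ : α => d) := by
  induction d with
  | nil => exact Poly.nilD _ rfl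
  | cons a b iha ihb => exact iha.consD ihb fun _ => rfl

/-- transport along equality of encodings -/
theorem Poly.congr_enc {f : α → β} {g : α → γ} (hf : Poly f) (h : ∀ a, enc (g a) = enc (f a)) :
    Poly g := by
  obtain ⟨p, P, hp⟩ := hf
  refine ⟨p, P, fun a m => ?_⟩
  rw [h a]
  exact hp a m

/-- transport along equality of encodings of the source -/
theorem Poly.congr_src {f : α → γ} {g : β → γ} {e : β → α} (hf : Poly f)
    (he : ∀ b, enc (e b) = enc b) (h : ∀ b, g b = f (e b)) : Poly g := by
  obtain ⟨p, P, hp⟩ := hf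
  refine ⟨p, P, fun b m => ?_⟩
  have := hp (e b) m
  rw [he, ← h] at this
  simpa [sz, he] using this

@[fun_prop]
theorem Poly.const (b : β) : Poly (fun _ : α => b) :=
  (Poly.constD (α := α) (enc b)).congr_enc fun _ => rfl

@[fun_prop]
theorem Poly.fst : Poly (fun p : α × β => p.1) := by
  refine ⟨.pop .M .skip .skip (.seq (roll 1) drop), 30 * Polynomial.X + 30, fun x m => ?_⟩
  rw [enc_prod]
  have h1 := run_roll [enc x.1] (enc x.2) [] m
  have h2 := run_drop (enc x.2) [enc x.1] m
  refine Run.mono (run_case_cons (Run.seq h1 h2)) ?_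
  simp [sz_prod]
  simp [sz]
  omega

@[fun_prop]
theorem Poly.snd : Poly (fun p : α × β => p.2) := by
  refine ⟨.pop .M .skip .skip drop, 30 * Polynomial.X + 30, fun x m => ?_⟩
  rw [enc_prod]
  have h2 := run_drop (enc x.1) [enc x.2] m
  refine Run.mono (run_case_cons h2) ?_
  simp [sz_prod]
  simp [sz]
  omega

/-- generic case distinction on the shape of an encoding -/
theorem Poly.case {l : α → β} {f : α → γ} {g : δ → γ} {h : α → γ}
    (hl : Poly l) (hf : Poly f) (hg : Poly g)
    (hnil : ∀ a, enc (l a) = .nil → h a = f a)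
    (hcons : ∀ a u v, enc (l a) = .cons u v →
      ∃ d : δ, enc d = .cons (enc a) (.cons u v) ∧ h a = g d) : Poly h := by
  obtain ⟨Q, hQ⟩ := hl.sz_le
  obtain ⟨r, R, hr⟩ := hl
  obtain ⟨p, P, hp⟩ := hf
  obtain ⟨q, S, hq⟩ := hg
  refine ⟨.seq (pick 0) (.seq r (.pop .M .skip p (.seq (.push .M true) (.seq (roll 1)
      (.seq (.push .M true) q))))),
    P + R + S.comp (Polynomial.X + Q + 1) + 20 * Q + 60 * Polynomial.X + 40, fun x m => ?_⟩
  have h1 := run_pick [] (enc x) [] m
  have h2 := run_lift (hr x) [enc x] m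
  have hQx : sz (l x) ≤ Q.eval (sz x) := hQ x
  cases hcx : enc (l x) with
  | nil =>
    rw [hcx] at h2
    rw [hnil x hcx]
    have h3 := run_case_nil (pe := .skip) (pt := (.seq (.push .M true) (.seq (roll 1)
      (.seq (.push .M true) q)))) (hp x m)
    refine Run.mono (Run.seq h1 (Run.seq h2 h3)) ?_
    simp [sz]
    omega
  | cons a b =>
    rw [hcx] at h2
    obtain ⟨d, hd, hhd⟩ := hcons x a b hcx
    rw [hhd]
    have h3 := run_cons a b [enc x] m
    have h4 := run_roll [.cons a b] (enc x) [] m
    have h5 := run_cons (enc x) (.cons a b) [] m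
    have h6 := hq d m
    rw [hd] at h6
    have h7 := run_case_cons (pe := .skip) (pf := p) (Run.seq h3 (Run.seq h4 (Run.seq h5 h6)))
    refine Run.mono (Run.seq h1 (Run.seq h2 h7)) ?_
    have hs : sz d = sz x + sz (l x) + 1 := by
      simp only [sz, hd, hcx, D.size]
    have hS : S.eval (sz d) ≤ S.eval (sz x + Q.eval (sz x) + 1) := poly_mono S (by omega)
    have hs2 : sz (l x) = a.size + b.size + 1 := by simp [sz, hcx, D.size]
    simp only [Polynomial.eval_add, Polynomial.eval_mul, Polynomial.eval_comp,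
      Polynomial.eval_X, Polynomial.eval_ofNat, Polynomial.eval_one, lsize_cons, lsize_nil,
      List.length_cons, List.length_nil, D.size]
    simp only [sz] at *
    omega

theorem Poly.cond {c : α → Bool} {f g : α → β} (hc : Poly c) (hf : Poly f) (hg : Poly g) :
    Poly (fun a => bif c a then f a else g a) := by
  refine Poly.case (g := fun p : α × Bool => f p.1) hc hg (by fun_prop) ?_ ?_
  · intro a h
    cases hc : c a
    · rfl
    · rw [hc] at h; simp at h
  · intro a u v h
    cases hc : c a
    · rw [hc] at h; simp at h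
    · rw [hc] at h
      simp only [enc_true, D.cons.injEq] at h
      exact ⟨(a, true), by simp [← h.1, ← h.2], by simp⟩

@[fun_prop]
theorem Poly.ite {c : α → Prop} [DecidablePred c] {f g : α → β}
    (hc : Poly (fun a => decide (c a))) (hf : Poly f) (hg : Poly g) :
    Poly (fun a => if c a then f a else g a) := by
  have := Poly.cond hc hf hg
  simpa only [Bool.cond_decide] using this

theorem Poly.lcase {l : α → List β} {f : α → γ} {g : α → β → List β → γ} (hl : Poly l)
    (hf : Poly f) (hg : Poly (fun p : α × β × List β => g p.1 p.2.1 p.2.2)) :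
    Poly (fun a => match l a with
      | [] => f a
      | x :: xs => g a x xs) := by
  refine Poly.case hl hf hg ?_ ?_
  · intro a h
    cases hc : l a
    · rfl
    · rw [hc] at h; simp at h
  · intro a u v h
    cases hc : l a with
    | nil => rw [hc] at h; simp at h
    | cons x xs =>
      rw [hc] at h
      simp only [enc_lcons, D.cons.injEq] at h
      exact ⟨(a, x, xs), by simp [← h.1, ← h.2], rfl⟩

theorem Poly.ocase {l : α → Option β} {f : α → γ} {g : α → β → γ} (hl : Poly l)
    (hf : Poly f) (hg : Poly (fun p : α × β => g p.1 p.2)) :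
    Poly (fun a => match l a with
      | none => f a
      | some x => g a x) := by
  refine Poly.case (g := fun p : α × Unit × β => g p.1 p.2.2) hl hf
    (Poly.comp (f := fun p : α × β => g p.1 p.2)
      (g := fun p : α × Unit × β => (p.1, p.2.2)) hg (by fun_prop)) ?_ ?_
  · intro a h
    cases hc : l a
    · rfl
    · rw [hc] at h; simp at h
  · intro a u v h
    cases hc : l a with
    | none => rw [hc] at h; simp at h
    | some x =>
      rw [hc] at h
      simp only [enc_some, D.cons.injEq] at h
      exact ⟨(a, (), x), by simp [← h.1, ← h.2]; rfl, rfl⟩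

theorem Poly.ncase {l : α → ℕ} {f : α → γ} {g : α → ℕ → γ} (hl : Poly l)
    (hf : Poly f) (hg : Poly (fun p : α × ℕ => g p.1 p.2)) :
    Poly (fun a => match l a with
      | 0 => f a
      | n + 1 => g a n) := by
  refine Poly.case (g := fun p : α × Unit × ℕ => g p.1 p.2.2) hl hf
    (Poly.comp (f := fun p : α × ℕ => g p.1 p.2)
      (g := fun p : α × Unit × ℕ => (p.1, p.2.2)) hg (by fun_prop)) ?_ ?_
  · intro a h
    cases hc : l a
    · rfl
    · rw [hc] at h; simp at h
  · intro a u v h
    cases hc : l a with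
    | zero => rw [hc] at h; simp at h
    | succ x =>
      rw [hc] at h
      simp only [enc_succ, D.cons.injEq] at h
      exact ⟨(a, (), x), by simp [← h.1, ← h.2]; rfl, rfl⟩

/-! ### Folding -/

/-- body of the fold loop, stack `a, l', acc, ctx` to `l', acc', ctx` -/
def foldBody (p : Prog) : Prog :=
  .seq (roll 2) (.seq (.push .M true) (.seq (pick 2) (.seq (.push .M true) (.seq p (roll 1)))))

theorem run_foldLoop {f : α × γ × β → γ} {p : Prog} {P : Polynomial ℕ}
    (hp : ∀ (x : α × γ × β) (m : List Bool),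
      Run p (stk [enc x] m) (stk [enc (f x)] m) (P.eval (sz x)))
    (ctx : α) (K : ℕ) (m : List Bool) : ∀ (l : List β) (acc : γ), sz l ≤ K →
    (∀ l₁ l₂, l = l₁ ++ l₂ → sz (l₁.foldl (fun s b => f (ctx, s, b)) acc) ≤ K) →
    Run (.whileT .M (foldBody p)) (stk [enc l, enc acc, enc ctx] m)
      (stk [enc (l.foldl (fun s b => f (ctx, s, b)) acc), enc ctx] m)
      (l.length * (P.eval (sz ctx + 2 * K + 2) + 200 * (sz ctx + K + 1)) + 1) := by
  intro l
  induction l with
  | nil =>
    intro acc _ _
    simp only [List.foldl_nil, List.length_nil, zero_mul, zero_add]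
    have := Run.while_f (k := .M) (p := foldBody p) (s := stk [D.nil, enc acc, enc ctx] m)
      (l := lbits [enc acc, enc ctx] ++ m) (by simp [stk, D.bits])
    simpa [stk] using this
  | cons a l ihl =>
    intro acc hK hall
    have hacc : sz acc ≤ K := by
      have := hall [] (a :: l) (by simp)
      simpa using this
    have hacc' : sz (f (ctx, acc, a)) ≤ K := by
      have := hall [a] l (by simp)
      simpa using this
    have hsz : sz l ≤ K := by simp at hK; omega
    have hasz : sz a ≤ K := by simp at hK; omega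
    have key := ihl (f (ctx, acc, a)) hsz (by
      intro l₁ l₂ h
      have := hall (a :: l₁) l₂ (by simp [h])
      simpa using this)
    have h1 := run_roll [enc a, enc l] (enc acc) [enc ctx] m
    have h2 := run_cons (enc acc) (enc a) [enc l, enc ctx] m
    have h3 := run_pick [.cons (enc acc) (enc a), enc l] (enc ctx) [] m
    have h4 := run_cons (enc ctx) (.cons (enc acc) (enc a)) [enc l, enc ctx] m
    have h5 := run_lift (hp (ctx, acc, a)) [enc l, enc ctx] m
    have h6 := run_roll [enc (f (ctx, acc, a))] (enc l) [enc ctx] m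
    have hb := Run.seq h1 (Run.seq h2 (Run.seq h3 (Run.seq h4 (Run.seq h5 h6))))
    have hw := Run.while_t (k := .M) (p := foldBody p)
      (s := stk [enc (a :: l), enc acc, enc ctx] m)
      (l := lbits [enc a, enc l, enc acc, enc ctx] ++ m) (by simp [stk, D.bits])
      (by simpa [stk, foldBody] using hb) key
    refine Run.mono hw ?_
    have hP : P.eval ((enc ctx).size + ((enc acc).size + (enc a).size + 1) + 1) ≤
        P.eval (sz ctx + 2 * K + 2) := by
      apply poly_mono
      simp only [sz] at *; omega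
    have hlen : (a :: l).length = l.length + 1 := by simp
    rw [hlen, Nat.add_mul]
    simp only [D.size]
    simp only [sz] at *
    omega

theorem Poly.foldl {f : α × γ × β → γ} {l : α → List β} {s0 : α → γ} {B : α → ℕ}
    (hf : Poly f) (hl : Poly l) (hs : Poly s0) (hB : PBdd B)
    (h : ∀ a l₁ l₂, l a = l₁ ++ l₂ → sz (l₁.foldl (fun s b => f (a, s, b)) (s0 a)) ≤ B a) :
    Poly (fun a => (l a).foldl (fun s b => f (a, s, b)) (s0 a)) := by
  obtain ⟨B', hB'⟩ := hB
  obtain ⟨Ql, hQl⟩ := hl.sz_le
  obtain ⟨Qa, hQa⟩ := hs.sz_le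
  obtain ⟨p, P, hp⟩ := hf
  obtain ⟨q, R, hq⟩ := hl
  obtain ⟨r, S, hr⟩ := hs
  refine ⟨.seq (pick 0) (.seq r (.seq (pick 1) (.seq q (.seq (.whileT .M (foldBody p))
    (.seq (roll 1) drop))))),
    S + R + Ql * (P.comp (Polynomial.X + 2 * (Ql + B') + 2) +
      200 * (Polynomial.X + (Ql + B') + 1)) + 100 * (Polynomial.X + Qa + Ql + B') + 100,
    fun x m => ?_⟩
  have h1 := run_pick [] (enc x) [] m
  have h2 := run_lift (hr x) [enc x] m
  have h3 := run_pick [enc (s0 x)] (enc x) [] m
  have h4 := run_lift (hq x) [enc (s0 x), enc x] m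
  have hBx := hB' x
  have hx := h x
  have h5 := run_foldLoop hp x (Ql.eval (sz x) + B'.eval (sz x)) m (l x) (s0 x)
    (by have : sz (l x) ≤ Ql.eval (sz x) := hQl x
        omega) (by
      intro l₁ l₂ h
      have := hx l₁ l₂ h
      omega)
  have h6 := run_roll [enc ((l x).foldl (fun s b => f (x, s, b)) (s0 x))] (enc x) [] m
  have h7 := run_drop (enc x) [enc ((l x).foldl (fun s b => f (x, s, b)) (s0 x))] m
  refine Run.mono (Run.seq h1 (Run.seq h2 (Run.seq h3 (Run.seq h4 (Run.seq h5
    (Run.seq h6 h7)))))) ?_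
  have hres := hx (l x) [] (by simp)
  have hlen : (l x).length ≤ Ql.eval (sz x) := by
    have := length_lt_sz (l x)
    have : sz (l x) ≤ Ql.eval (sz x) := hQl x
    omega
  have hQax : sz (s0 x) ≤ Qa.eval (sz x) := hQa x
  have hQlx : sz (l x) ≤ Ql.eval (sz x) := hQl x
  have hmul := Nat.mul_le_mul_right
    (P.eval (sz x + 2 * (Ql.eval (sz x) + B'.eval (sz x)) + 2) +
      200 * (sz x + (Ql.eval (sz x) + B'.eval (sz x)) + 1)) hlen
  simp only [Polynomial.eval_add, Polynomial.eval_mul, Polynomial.eval_comp, Polynomial.eval_X,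
    Polynomial.eval_ofNat, Polynomial.eval_one, lsize_cons, lsize_nil, List.length_cons,
    List.length_nil]
  simp only [sz] at *
  omega

end basic

end Pool.Agent.H.MP_0447ec_lc.PT
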